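import Pool.Agent.R749.IC.Notions
import Pool.Agent.R749.IC.Box

/-!
# Advice and certificates from rooted pieces (helper586)
-/

set_option autoImplicit false

open Set Topology

namespace R749IC

open R749SCT (HilbertCube oracle CEIn)

namespace CompleteAux

theorem circ_eq {x y : ℝ} : (x : Circ) = (y : Circ) ↔ ∃ n : ℤ, x - y = n := by
  rw [← sub_eq_zero, ← AddCircle.coe_sub, AddCircle.coe_eq_zero_iff]
  constructor
  · rintro ⟨n, hn⟩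
    exact ⟨n, by rw [← hn]; simp⟩
  · rintro ⟨n, hn⟩
    exact ⟨n, by rw [hn]; simp⟩

theorem Varc_eq (a : ℕ) :
    Varc a = (fun x : ℝ => (x : Circ)) '' Ioo ((a : ℝ) / 3 - 1 / 12) (((a : ℝ) + 1) / 3 + 1 / 12) := by
  ext z
  constructor
  · rintro ⟨x, hx, h1, h2⟩
    exact ⟨x, ⟨h1, h2⟩, hx⟩
  · rintro ⟨x, ⟨h1, h2⟩, hx⟩
    exact ⟨x, hx, h1, h2⟩

theorem isOpen_Varc (a : ℕ) : IsOpen (Varc a) := by
  rw [Varc_eq]
  exact QuotientAddGroup.isOpenMap_coe _ isOpen_Ioo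

theorem isClosed_image_Icc (c d : ℝ) :
    IsClosed {z : Circ | ∃ x : ℝ, (x : Circ) = z ∧ c ≤ x ∧ x ≤ d} := by
  have h : {z : Circ | ∃ x : ℝ, (x : Circ) = z ∧ c ≤ x ∧ x ≤ d} =
      (fun x : ℝ => (x : Circ)) '' Icc c d := by
    ext z
    constructor
    · rintro ⟨x, hx, h1, h2⟩
      exact ⟨x, ⟨h1, h2⟩, hx⟩
    · rintro ⟨x, ⟨h1, h2⟩, hx⟩
      exact ⟨x, hx, h1, h2⟩
  rw [h]
  exact (isCompact_Icc.image (AddCircle.continuous_mk' 1)).isClosed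

theorem isClosed_Warc (a : ℕ) : IsClosed (Warc a) := isClosed_image_Icc _ _

theorem Warc_subset (a : ℕ) : Warc a ⊆ Varc a := by
  rintro z ⟨x, hx, h1, h2⟩
  exact ⟨x, hx, by linarith, by linarith⟩

/-- the arcs `[(a/3 + s)/r, ((a+1)/3 + s)/r]` -/
def Aarc (r a s : ℕ) : Set Circ :=
  {z | ∃ x : ℝ, (x : Circ) = z ∧ ((a : ℝ) / 3 + s) / r ≤ x ∧ x ≤ (((a : ℝ) + 1) / 3 + s) / r}

theorem isClosed_Aarc (r a s : ℕ) : IsClosed (Aarc r a s) := isClosed_image_Icc _ _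

theorem Aarc_smul {r a s : ℕ} (hr : 0 < r) {z : Circ} (hz : z ∈ Aarc r a s) : r • z ∈ Warc a := by
  obtain ⟨x, rfl, h1, h2⟩ := hz
  have hr' : (0 : ℝ) < r := by exact_mod_cast hr
  rw [div_le_iff₀ hr'] at h1
  rw [le_div_iff₀ hr'] at h2
  refine ⟨x * r - s, ?_, by linarith, by linarith⟩
  rw [← AddCircle.coe_nsmul, circ_eq]
  exact ⟨-(s : ℤ), by push_cast; rw [nsmul_eq_mul]; ring⟩

theorem Aarc_cover {r : ℕ} (hr : 0 < r) (z : Circ) : ∃ a < 3, ∃ s < r, z ∈ Aarc r a s := by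
  obtain ⟨y, rfl⟩ := QuotientAddGroup.mk_surjective z
  have hr' : (0 : ℝ) < r := by exact_mod_cast hr
  have hu0 : 0 ≤ Int.fract y := Int.fract_nonneg y
  have hu1 : Int.fract y < 1 := Int.fract_lt_one y
  set u : ℝ := Int.fract y with hu
  have h0 : 0 ≤ 3 * (r : ℝ) * u := by positivity
  set l : ℕ := ⌊3 * (r : ℝ) * u⌋₊ with hl
  have hl1 : (l : ℝ) ≤ 3 * (r : ℝ) * u := Nat.floor_le h0
  have hl2 : 3 * (r : ℝ) * u < l + 1 := Nat.lt_floor_add_one _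
  have hl3 : l < 3 * r := by
    have h1 : (l : ℝ) < ((3 * r : ℕ) : ℝ) := by
      push_cast
      nlinarith
    exact_mod_cast h1
  have hdm : l = 3 * (l / 3) + l % 3 := (Nat.div_add_mod l 3).symm
  have hdm' : (l : ℝ) = 3 * ((l / 3 : ℕ) : ℝ) + ((l % 3 : ℕ) : ℝ) := by exact_mod_cast hdm
  refine ⟨l % 3, Nat.mod_lt _ (by norm_num), l / 3, by omega, u, ?_, ?_, ?_⟩
  · refine circ_eq.2 ⟨-⌊y⌋, ?_⟩
    rw [hu, Int.fract]
    push_cast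
    ring
  · rw [div_le_iff₀ hr']
    linarith
  · rw [le_div_iff₀ hr']
    linarith

theorem mod_eq_of {r : ℕ} {p q : ℕ} {l : ℤ} (h : (p : ℤ) = q + r * l) : p % r = q % r := by
  have h1 : (p : ℤ) ≡ q [ZMOD r] := by
    rw [h]
    exact (Int.modEq_iff_dvd.2 ⟨-l, by ring⟩)
  exact Int.natCast_modEq_iff.1 h1

theorem Aarc_compat {r a a' s s' : ℕ} (hr : 0 < r) (ha : a < 3) (ha' : a' < 3) {z : Circ}
    (hz : z ∈ Aarc r a s) (hz' : z ∈ Aarc r a' s') :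
    (a = 2 ∧ a' = 0 ∧ s' % r = (s + 1) % r) ∨ (a = 0 ∧ a' = 2 ∧ s % r = (s' + 1) % r) ∨
      (¬ (a = 2 ∧ a' = 0) ∧ ¬ (a = 0 ∧ a' = 2) ∧ s % r = s' % r) := by
  obtain ⟨x, rfl, h1, h2⟩ := hz
  obtain ⟨x', hx', h3, h4⟩ := hz'
  obtain ⟨l, hl⟩ := circ_eq.1 hx'
  have hr' : (0 : ℝ) < r := by exact_mod_cast hr
  rw [div_le_iff₀ hr'] at h1 h3
  rw [le_div_iff₀ hr'] at h2 h4
  have hx : x' = x + l := by linarith
  subst hx
  have e : (x + l) * (r : ℝ) = x * r + r * l := by ring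
  rw [e] at h3 h4
  have g1 : ((3 * (r * l - s' + s) : ℤ) : ℝ) ≤ ((a' + 1 - a : ℤ) : ℝ) := by
    push_cast
    linarith
  have g2 : ((a' - a - 1 : ℤ) : ℝ) ≤ ((3 * (r * l - s' + s) : ℤ) : ℝ) := by
    push_cast
    linarith
  have g1' : 3 * ((r : ℤ) * l - s' + s) ≤ a' + 1 - a := by exact_mod_cast g1
  have g2' : (a' : ℤ) - a - 1 ≤ 3 * ((r : ℤ) * l - s' + s) := by exact_mod_cast g2
  clear g1 g2 h1 h2 h3 h4 e hx' hl
  generalize hq : (r : ℤ) * l = q at g1' g2'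
  by_cases c1 : a = 2 ∧ a' = 0
  · left
    refine ⟨c1.1, c1.2, ?_⟩
    obtain ⟨rfl, rfl⟩ := c1
    refine mod_eq_of (l := l) ?_
    rw [hq]
    push_cast at *
    omega
  · right
    by_cases c2 : a = 0 ∧ a' = 2
    · left
      refine ⟨c2.1, c2.2, ?_⟩
      obtain ⟨rfl, rfl⟩ := c2
      refine (mod_eq_of (l := l) ?_).symm
      rw [hq]
      push_cast at *
      omega
    · right
      refine ⟨c1, c2, ?_⟩
      refine (mod_eq_of (l := l) ?_).symm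
      rw [hq]
      omega

theorem ord_pos (n i : ℕ) : 0 < ord n i := by
  unfold ord
  split_ifs
  · positivity
  · positivity

end CompleteAux

open CompleteAux

/-- the advice -/
theorem advice {X : Type} [TopologicalSpace X] [CompactSpace X] (θ : X → Circ) (hθ : Continuous θ)
    (J : X → HilbertCube) (hJ : Continuous J) (hJi : Function.Injective J) :
    ∃ (N : ℕ → List BoxCode) (N₀ : ℕ),
      (∀ a < 3, ∀ x, θ x ∉ Varc a → ∃ w ∈ N a, J x ∈ box w) ∧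
      ∀ a < 3, ∀ v, Fine N₀ v → (∃ x, θ x ∈ Warc a ∧ J x ∈ box v) → ∀ w ∈ N a, FD v w := by
  have hZ : ∀ a, IsCompact (J '' {x | θ x ∉ Varc a}) := fun a =>
    ((isOpen_Varc a).isClosed_compl.preimage hθ).isCompact.image hJ
  have hP : ∀ a, IsCompact (J '' {x | θ x ∈ Warc a}) := fun a =>
    ((isClosed_Warc a).preimage hθ).isCompact.image hJ
  have hd : ∀ a, Disjoint (J '' {x | θ x ∈ Warc a}) (J '' {x | θ x ∉ Varc a}) := by
    intro a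
    rw [Set.disjoint_left]
    rintro y ⟨x, hx, rfl⟩ ⟨x', hx', he⟩
    rw [hJi he] at hx'
    exact hx' (Warc_subset a hx)
  choose M hM using fun a => sep (hP a) (hZ a) (hd a)
  choose L hL1 hL2 using fun a => cover (hZ a) (M 0 + M 1 + M 2)
  have hM' : ∀ a < 3, M a ≤ M 0 + M 1 + M 2 := by
    intro a ha
    interval_cases a <;> omega
  refine ⟨L, M 0 + M 1 + M 2, ?_, ?_⟩
  · intro a _ x hx
    exact hL1 a _ ⟨x, hx, rfl⟩
  · rintro a ha v hv ⟨x, hx, hxv⟩ w hw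
    obtain ⟨h1, h2⟩ := hL2 a w hw
    exact hM a v w (hv.mono (hM' a ha)) (h1.mono (hM' a ha)) ⟨J x, hxv, x, hx, rfl⟩ h2

/-- completeness from rooted pieces -/
theorem complete {X : Type} [TopologicalSpace X] [CompactSpace X] (θ : X → Circ)
    (hθ : Continuous θ)
    (J : X → HilbertCube) (hJ : Continuous J) (hJi : Function.Injective J)
    (N : ℕ → List BoxCode) (N₀ : ℕ)
    (hN₀ : ∀ a < 3, ∀ v, Fine N₀ v → (∃ x, θ x ∈ Warc a ∧ J x ∈ box v) → ∀ w ∈ N a, FD v w)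
    (n : ℕ) (K : ℕ → Set X) (ρ : ℕ → X → Circ) (hK : ∀ i ≤ n, IsClosed (K i))
    (hdis : ∀ i ≤ n, ∀ j ≤ n, i ≠ j → Disjoint (K i) (K j))
    (hρ : ∀ i ≤ n, ContinuousOn (ρ i) (K i))
    (hroot : ∀ i ≤ n, ∀ x ∈ K i, ord n i • ρ i x = θ x) :
    ∃ L : List ((ℕ × ℕ × ℕ) × BoxCode), Cert N n L ∧
      ∀ i ≤ n, ∀ x ∈ K i, ∃ e ∈ L, J x ∈ box e.2 := by
  classical
  have _ := hθ
  let Kl : ℕ × ℕ × ℕ → Set X := fun e => K e.1 ∩ (ρ e.1) ⁻¹' (Aarc (ord n e.1) e.2.1 e.2.2)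
  let Λ : Finset (ℕ × ℕ × ℕ) :=
    (Finset.range (n + 1) ×ˢ Finset.range 3 ×ˢ
      Finset.range ((Finset.range (n + 1)).sup (ord n))).filter (fun e => e.2.2 < ord n e.1)
  have hΛ : ∀ e : ℕ × ℕ × ℕ, e ∈ Λ ↔ e.1 ≤ n ∧ e.2.1 < 3 ∧ e.2.2 < ord n e.1 := by
    intro e
    simp only [Λ, Finset.mem_filter, Finset.mem_product, Finset.mem_range]
    constructor
    · rintro ⟨⟨h1, h2, h3⟩, h4⟩
      exact ⟨by omega, h2, h4⟩
    · rintro ⟨h1, h2, h4⟩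
      refine ⟨⟨by omega, h2, ?_⟩, h4⟩
      exact lt_of_lt_of_le h4 (Finset.le_sup (f := ord n) (Finset.mem_range.2 (by omega)))
  have hKc : ∀ e ∈ Λ, IsCompact (J '' Kl e) := by
    intro e he
    obtain ⟨h1, -, -⟩ := (hΛ e).1 he
    exact (((hρ _ h1).preimage_isClosed_of_isClosed (hK _ h1)
      (isClosed_Aarc _ _ _)).isCompact).image hJ
  have hKd : ∀ e ∈ Λ, ∀ f ∈ Λ, ¬ Compat n e f → Disjoint (J '' Kl e) (J '' Kl f) := by
    intro e he f hf hc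
    obtain ⟨h1, h2, h3⟩ := (hΛ e).1 he
    obtain ⟨g1, g2, g3⟩ := (hΛ f).1 hf
    rw [Set.disjoint_left]
    rintro y ⟨x, hx, rfl⟩ ⟨x', hx', hxx⟩
    rw [hJi hxx] at hx'
    by_cases hef : e.1 = f.1
    · apply hc
      refine ⟨hef, ?_⟩
      have k1 := hx.2
      have k2 := hx'.2
      rw [Set.mem_preimage] at k1 k2
      rw [← hef] at k2
      exact Aarc_compat (ord_pos n e.1) h2 g2 k1 k2
    · exact (Set.disjoint_left.1 (hdis _ h1 _ g1 hef)) hx.1 hx'.1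
  have hsep : ∀ p : (ℕ × ℕ × ℕ) × (ℕ × ℕ × ℕ), ∃ M : ℕ, p.1 ∈ Λ → p.2 ∈ Λ →
      ¬ Compat n p.1 p.2 → ∀ v w : BoxCode, Fine M v → Fine M w →
      (box v ∩ J '' Kl p.1).Nonempty → (box w ∩ J '' Kl p.2).Nonempty → FD v w := by
    intro p
    by_cases h : p.1 ∈ Λ ∧ p.2 ∈ Λ ∧ ¬ Compat n p.1 p.2
    · obtain ⟨M, hM⟩ := sep (hKc _ h.1) (hKc _ h.2.1) (hKd _ h.1 _ h.2.1 h.2.2)
      exact ⟨M, fun _ _ _ => hM⟩
    · exact ⟨0, fun h1 h2 h3 => absurd ⟨h1, h2, h3⟩ h⟩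
  choose Ns hNs using hsep
  let M : ℕ := max N₀ ((Λ ×ˢ Λ).sup Ns)
  have hM0 : N₀ ≤ M := le_max_left _ _
  have hMs : ∀ e ∈ Λ, ∀ f ∈ Λ, Ns (e, f) ≤ M := fun e he f hf =>
    le_trans (Finset.le_sup (f := Ns) (Finset.mem_product.2 ⟨he, hf⟩)) (le_max_right _ _)
  have hcov : ∀ e : ℕ × ℕ × ℕ, ∃ L : List BoxCode, e ∈ Λ → (∀ y ∈ J '' Kl e, ∃ v ∈ L, y ∈ box v) ∧
      ∀ v ∈ L, Fine M v ∧ (box v ∩ J '' Kl e).Nonempty := by
    intro e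
    by_cases he : e ∈ Λ
    · obtain ⟨L, hL⟩ := cover (hKc e he) M
      exact ⟨L, fun _ => hL⟩
    · exact ⟨[], fun h => absurd h he⟩
  choose Ls hLs using hcov
  have hmem : ∀ e : (ℕ × ℕ × ℕ) × BoxCode,
      e ∈ Λ.toList.flatMap (fun l => (Ls l).map (fun v => (l, v))) ↔ e.1 ∈ Λ ∧ e.2 ∈ Ls e.1 := by
    rintro ⟨e, v⟩
    simp only [List.mem_flatMap, Finset.mem_toList, List.mem_map, Prod.mk.injEq]
    constructor
    · rintro ⟨l, hl, w, hw, rfl, rfl⟩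
      exact ⟨hl, hw⟩
    · rintro ⟨h1, h2⟩
      exact ⟨e, h1, v, h2, rfl, rfl⟩
  refine ⟨Λ.toList.flatMap (fun l => (Ls l).map (fun v => (l, v))), ⟨?_, ?_⟩, ?_⟩
  · intro e he
    obtain ⟨h1, h2⟩ := (hmem e).1 he
    obtain ⟨k1, k2, k3⟩ := (hΛ _).1 h1
    refine ⟨k1, k2, ?_⟩
    obtain ⟨hf, y, hy, x, hx, rfl⟩ := (hLs e.1 h1).2 e.2 h2
    refine hN₀ _ k2 _ (hf.mono hM0) ⟨x, ?_, hy⟩
    rw [← hroot _ k1 x hx.1]
    exact Aarc_smul (ord_pos n _) hx.2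
  · intro e he f hf
    obtain ⟨h1, h2⟩ := (hmem e).1 he
    obtain ⟨g1, g2⟩ := (hmem f).1 hf
    by_cases hc : Compat n e.1 f.1
    · exact Or.inl hc
    · right
      obtain ⟨k1, k2⟩ := (hLs e.1 h1).2 e.2 h2
      obtain ⟨l1, l2⟩ := (hLs f.1 g1).2 f.2 g2
      exact hNs (e.1, f.1) h1 g1 hc e.2 f.2 (k1.mono (hMs _ h1 _ g1)) (l1.mono (hMs _ h1 _ g1)) k2 l2
  · intro i hi x hx
    obtain ⟨a, ha, s, hs, hz⟩ := Aarc_cover (ord_pos n i) (ρ i x)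
    have he : ((i, a, s) : ℕ × ℕ × ℕ) ∈ Λ := (hΛ _).2 ⟨hi, ha, hs⟩
    obtain ⟨v, hv, hxv⟩ := (hLs _ he).1 (J x) ⟨x, ⟨hx, hz⟩, rfl⟩
    exact ⟨((i, a, s), v), (hmem _).2 ⟨he, hv⟩, hxv⟩

end R749IC
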