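import Pool.Agent.R749.SCT.Comp

/-!
# Definitions for MP_f8852a_lc (strong computable type and infinitely many components)

`HilbertCube`, `oracle` and `CEIn` are the ones of `Pool.Agent.R749.SCT.Defs`.
-/

open Set Topology

namespace R749IC

open R749SCT (HilbertCube oracle CEIn)

/-- Codes of basic open sets: a finite list whose `n`-th entry `(a, b, q)` stands for the open
interval with the rational end points `a/(q+1) - 1` and `b/(q+1) - 1` in the coordinate `n`. -/
abbrev BoxCode : Type := List (ℕ × ℕ × ℕ)

/-- left end point of the interval in coordinate `n` -/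
noncomputable def lo (v : BoxCode) (n : ℕ) : ℝ :=
  ((v.getD n (0, 0, 0)).1 : ℝ) / (((v.getD n (0, 0, 0)).2.2 : ℝ) + 1) - 1

/-- right end point of the interval in coordinate `n` -/
noncomputable def hi (v : BoxCode) (n : ℕ) : ℝ :=
  ((v.getD n (0, 0, 0)).2.1 : ℝ) / (((v.getD n (0, 0, 0)).2.2 : ℝ) + 1) - 1

/-- The basic open set with code `v`: the coordinates `n < v.length` lie in the given open
intervals, the other coordinates are unrestricted. -/
def box (v : BoxCode) : Set HilbertCube :=
  {y | ∀ n < v.length, lo v n < (y n : ℝ) ∧ (y n : ℝ) < hi v n}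

/-- The set of finite lists of basic open sets whose union covers `K` is c.e. relative to `O`. -/
def SemicomputableIn (O : Set ℕ) (K : Set HilbertCube) : Prop :=
  CEIn O {L : List BoxCode | ∀ y ∈ K, ∃ v ∈ L, y ∈ box v}

/-- Semicomputable and the set of basic open sets that meet `K` is c.e. relative to `O`. -/
def ComputableRel (O : Set ℕ) (K : Set HilbertCube) : Prop :=
  SemicomputableIn O K ∧ CEIn O {v : BoxCode | ∃ y ∈ K, y ∈ box v}

/-- `X` has strong computable type: for every oracle `O` and every copy `Y` of `X` in the Hilbert
cube, if `Y` is semicomputable relative to `O` then it is computable relative to `O`. -/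
def StrongComputableType (X : Type) [TopologicalSpace X] : Prop :=
  ∀ (O : Set ℕ) (Y : Set HilbertCube), Nonempty (X ≃ₜ Y) → SemicomputableIn O Y → ComputableRel O Y

end R749IC
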