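import Pool.Agent.R749.IC.Notions

set_option autoImplicit false

open Set Topology

namespace R749IC

open R749SCT (HilbertCube oracle CEIn)

/-- the rooted pieces: if the open set `B` contains a point of the `n`-th circle, then
everything outside of `B` is covered by rooted pieces -/
theorem pieces {X : Type} [TopologicalSpace X] [CompactSpace X] [T2Space X] (m : Model X)
    (B : Set X) (hB : IsOpen B) (n : ℕ) (t : Circ) (ht : m.γ n t ∈ B) :
    ∃ (K : ℕ → Set X) (ρ : ℕ → X → Circ), (∀ i ≤ n, IsClosed (K i)) ∧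
      (∀ i ≤ n, ∀ j ≤ n, i ≠ j → Disjoint (K i) (K j)) ∧
      (∀ i ≤ n, ContinuousOn (ρ i) (K i)) ∧
      (∀ i ≤ n, ∀ x ∈ K i, ord n i • ρ i x = m.θ x) ∧
      ∀ x, x ∉ B → ∃ i ≤ n, x ∈ K i := by
  classical
  obtain ⟨c, hc⟩ : ∃ c : ℝ, (c : Circ) = t := QuotientAddGroup.mk_surjective t
  have hcl : ∀ j, IsClosed (range (m.γ j)) := fun j => (isCompact_range (m.hγ j)).isClosed
  set T : Set X := {x | ∀ j ≤ n, x ∉ range (m.γ j)} with hT
  have hTcl : IsClosed T := by
    have : T = ⋂ j, ⋂ (_ : j ≤ n), (range (m.γ j))ᶜ := by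
      ext x; simp [hT]
    rw [this]
    exact isClosed_iInter fun j => isClosed_iInter fun _ => (m.hopen j).isClosed_compl
  set D : ℕ := 2 ^ n * (2 ^ (2 ^ n) + 1) with hD
  let g : X → Circ := fun x =>
    ((((D : ℝ) * ((AddCircle.equivIoc (1 : ℝ) c (m.τ x)) : ℝ) / 2 ^ (n + 1) : ℝ)) : Circ)
  let ρ0 : X → Circ := fun x => if x ∈ range (m.γ n) then g x else m.ψ n x
  refine ⟨fun i => Nat.casesOn i ((T ∪ range (m.γ n)) \ B) (fun i => range (m.γ i)),
    fun i => Nat.casesOn i ρ0 (fun i => fun x => (2 ^ i) • m.τ x), ?_, ?_, ?_, ?_, ?_⟩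
  · intro i _
    cases i with
    | zero => exact (hTcl.union (hcl n)).sdiff hB
    | succ i => exact hcl i
  · have key : ∀ i, i + 1 ≤ n → Disjoint ((T ∪ range (m.γ n)) \ B) (range (m.γ i)) := by
      intro i hi
      rw [Set.disjoint_left]
      rintro x ⟨hx | hx, _⟩ hx'
      · exact hx i (by omega) hx'
      · exact Set.disjoint_left.1 (m.hdisj n i (by omega)) hx hx'
    intro i hi j hj hij
    cases i with
    | zero =>
      cases j with
      | zero => exact absurd rfl hij
      | succ j => exact key j hj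
    | succ i =>
      cases j with
      | zero => exact (key i hi).symm
      | succ j => exact m.hdisj i j (by omega)
  · intro i _
    cases i with
    | zero =>
      intro x hx
      refine ContinuousAt.continuousWithinAt ?_
      by_cases hxn : x ∈ range (m.γ n)
      · obtain ⟨t', rfl⟩ := hxn
        have htt : t' ≠ t := by
          rintro rfl
          exact hx.2 ht
        have hg : ContinuousAt g (m.γ n t') := by
          have h1 : ContinuousAt (AddCircle.equivIoc (1 : ℝ) c) (m.τ (m.γ n t')) := by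
            apply AddCircle.continuousAt_equivIoc
            rw [m.hτγ, hc]
            exact htt
          have h2 : ContinuousAt (fun x => AddCircle.equivIoc (1 : ℝ) c (m.τ x)) (m.γ n t') :=
            ContinuousAt.comp h1 m.hτ.continuousAt
          have h3 : ContinuousAt (fun x => ((AddCircle.equivIoc (1 : ℝ) c (m.τ x)) : ℝ))
              (m.γ n t') := continuous_subtype_val.continuousAt.comp h2
          have h4 : ContinuousAt (fun x => (D : ℝ) *
              ((AddCircle.equivIoc (1 : ℝ) c (m.τ x)) : ℝ) / 2 ^ (n + 1)) (m.γ n t') :=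
            (h3.const_mul _).div_const _
          exact (AddCircle.continuous_mk' (1 : ℝ)).continuousAt.comp h4
        refine hg.congr ?_
        filter_upwards [(m.hopen n).mem_nhds (mem_range_self t')] with y hy
        change g y = if y ∈ range (m.γ n) then g y else m.ψ n y
        rw [if_pos hy]
      · refine (m.hψ n).continuousAt.congr ?_
        filter_upwards [(hcl n).isOpen_compl.mem_nhds hxn] with y hy
        change m.ψ n y = if y ∈ range (m.γ n) then g y else m.ψ n y
        rw [if_neg hy]
    | succ i => exact ((continuous_nsmul (2 ^ i)).comp m.hτ).continuousOn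
  · intro i _ x hx
    cases i with
    | zero =>
      change ord n 0 • (if x ∈ range (m.γ n) then g x else m.ψ n x) = m.θ x
      have ho : ord n 0 = 2 ^ (n + 1) := by simp [ord]
      rw [ho]
      by_cases hxn : x ∈ range (m.γ n)
      · rw [if_pos hxn]
        obtain ⟨t', rfl⟩ := hxn
        change (2 ^ (n + 1)) • ((((D : ℝ) * ((AddCircle.equivIoc (1 : ℝ) c (m.τ (m.γ n t'))) : ℝ)
          / 2 ^ (n + 1) : ℝ)) : Circ) = m.θ (m.γ n t')
        rw [← AddCircle.coe_nsmul, m.hθγ, ← hD, m.hτγ]
        have h1 : (2 ^ (n + 1)) • (((D : ℝ) * ((AddCircle.equivIoc (1 : ℝ) c t') : ℝ)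
          / 2 ^ (n + 1) : ℝ)) = D • ((AddCircle.equivIoc (1 : ℝ) c t') : ℝ) := by
          rw [nsmul_eq_mul, nsmul_eq_mul]
          push_cast
          field_simp
        rw [h1, AddCircle.coe_nsmul, AddCircle.coe_equivIoc]
      · rw [if_neg hxn]
        apply m.hroot
        rcases hx.1 with h | h
        · exact h
        · exact absurd h hxn
    | succ i =>
      obtain ⟨t', rfl⟩ := hx
      change ord n (i + 1) • ((2 ^ i) • m.τ (m.γ i t')) = m.θ (m.γ i t')
      have ho : ord n (i + 1) = 2 ^ (2 ^ i) + 1 := by simp [ord]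
      rw [ho, m.hτγ, m.hθγ, smul_smul, mul_comm]
  · intro x hxB
    by_cases h : ∃ i, i < n ∧ x ∈ range (m.γ i)
    · obtain ⟨i, hi, hx⟩ := h
      exact ⟨i + 1, hi, hx⟩
    · refine ⟨0, Nat.zero_le _, ?_, hxB⟩
      by_cases hxn : x ∈ range (m.γ n)
      · exact Or.inr hxn
      · left
        intro j hj hx
        rcases Nat.lt_or_ge j n with h1 | h1
        · exact h ⟨j, h1, hx⟩
        · have : j = n := le_antisymm hj h1
          exact hxn (this ▸ hx)

end R749IC
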