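import Pool.Agent.R749.IC.Notions

/-!
# No certificate covers the whole space
-/

open Set Topology

namespace R749IC

open R749SCT (HilbertCube oracle CEIn)

/-- basic boxes are open -/
theorem soundAux_isOpen_box (v : BoxCode) : IsOpen (box v) := by
  have h : box v = ⋂ n ∈ Finset.range v.length,
      {y : HilbertCube | lo v n < (y n : ℝ) ∧ (y n : ℝ) < hi v n} := by
    ext y; simp [box]
  rw [h]
  apply isOpen_biInter_finset
  intro n _
  have hc : Continuous fun y : HilbertCube => (y n : ℝ) :=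
    continuous_subtype_val.comp (continuous_apply n)
  exact (isOpen_lt continuous_const hc).inter (isOpen_lt hc continuous_const)

/-- formally disjoint boxes are disjoint -/
theorem soundAux_FD_disjoint {v w : BoxCode} (h : FD v w) : Disjoint (box v) (box w) := by
  rw [disjoint_left]
  intro y hv hw
  obtain ⟨n, hn1, hn2, h⟩ := h
  have h1 := hv n hn1
  have h2 := hw n hn2
  rcases h with h | h
  · have h3 : hi v n ≤ lo w n := by
      unfold hi lo
      apply sub_le_sub_right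
      rw [div_le_div_iff₀ (by positivity) (by positivity)]
      exact_mod_cast h
    linarith [h1.2, h2.1]
  · have h3 : hi w n ≤ lo v n := by
      unfold hi lo
      apply sub_le_sub_right
      rw [div_le_div_iff₀ (by positivity) (by positivity)]
      exact_mod_cast h
    linarith [h1.1, h2.2]

theorem not_ord_dvd {n i : ℕ} (hi : i ≤ n) : ¬ ord n i ∣ 2 ^ n * (2 ^ (2 ^ n) + 1) := by
  intro h
  have hev : ∀ k : ℕ, Odd (2 ^ (2 ^ k) + 1) := by
    intro k
    apply Even.add_one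
    exact (even_two).pow_of_ne_zero (by positivity)
  rcases i with _ | k
  · have h1 : ord n 0 = 2 ^ n * 2 := by
      unfold ord
      rw [if_pos rfl, pow_succ]
    rw [h1] at h
    have h2 : 2 ∣ 2 ^ (2 ^ n) + 1 := Nat.dvd_of_mul_dvd_mul_left (by positivity) h
    exact (Nat.not_even_iff_odd.2 (hev n)) (even_iff_two_dvd.2 h2)
  · have h1 : ord n (k + 1) = 2 ^ (2 ^ k) + 1 := by
      unfold ord
      rw [if_neg (by omega)]
      simp
    rw [h1] at h
    have h2 : Nat.Coprime (2 ^ (2 ^ k) + 1) (2 ^ n) :=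
      Nat.Coprime.pow_right n (Nat.coprime_two_right.2 (hev k))
    have h3 : Nat.Coprime (2 ^ (2 ^ k) + 1) (2 ^ (2 ^ n) + 1) :=
      Nat.coprime_fermatNumber_fermatNumber (m := k) (n := n) (by omega)
    have h4 := Nat.Coprime.eq_one_of_dvd (Nat.Coprime.mul_right h2 h3) h
    have h5 : 0 < 2 ^ (2 ^ k) := by positivity
    omega

/-- the integer in the difference of two positions -/
theorem int_zero {x y : ℝ} {M M' : ℤ} {a b : ℝ} (h1 : a / 3 - 1 / 12 < x - M)
    (h2 : x - M < (a + 1) / 3 + 1 / 12) (h3 : b / 3 - 1 / 12 < y - M')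
    (h4 : y - M' < (b + 1) / 3 + 1 / 12) :
    (a - b) / 3 - 1 / 2 < (x - y) - (M - M' : ℤ) ∧ (x - y) - (M - M' : ℤ) < (a - b) / 3 + 1 / 2 := by
  push_cast
  constructor <;> linarith

theorem sound {X : Type} [TopologicalSpace X] (m : Model X) (J : X → HilbertCube)
    (hJ : Continuous J) (N : ℕ → List BoxCode)
    (hN : ∀ a < 3, ∀ x, m.θ x ∉ Varc a → ∃ w ∈ N a, J x ∈ box w)
    (n : ℕ) (L : List ((ℕ × ℕ × ℕ) × BoxCode)) (hL : Cert N n L) :
    ¬ ∀ x, ∃ e ∈ L, J x ∈ box e.2 := by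
  intro hcov
  choose E hEL hEJ using hcov
  obtain ⟨hL1, hL2⟩ := hL
  have hco : Continuous fun t : ℝ => (t : Circ) := AddCircle.continuous_mk' 1
  set y : ℝ → X := fun t => m.γ n (t : Circ) with hy
  have hyc : Continuous fun t => J (y t) := hJ.comp ((m.hγ n).comp hco)
  set D : ℕ := 2 ^ n * (2 ^ (2 ^ n) + 1) with hD
  have hpos : ∀ t : ℝ, ∃ M : ℤ, (((E (y t)).1.2.1 : ℕ) : ℝ) / 3 - 1 / 12 < D * t - M ∧
      D * t - M < ((((E (y t)).1.2.1 : ℕ) : ℝ) + 1) / 3 + 1 / 12 := by
    intro t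
    have hlt := (hL1 _ (hEL (y t))).2.1
    have hV : m.θ (y t) ∈ Varc (E (y t)).1.2.1 := by
      by_contra hV
      obtain ⟨w, hw, hJw⟩ := hN _ hlt _ hV
      exact (disjoint_left.1 (soundAux_FD_disjoint ((hL1 _ (hEL (y t))).2.2 w hw))) (hEJ (y t)) hJw
    obtain ⟨x, hx, hx1, hx2⟩ := hV
    have hθ : m.θ (y t) = ((D * t : ℝ) : Circ) := by
      rw [hy, m.hθγ, ← hD, ← AddCircle.coe_nsmul, nsmul_eq_mul]
    rw [hθ, QuotientAddGroup.eq, AddSubgroup.mem_zmultiples_iff] at hx
    obtain ⟨k, hk⟩ := hx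
    rw [zsmul_eq_mul, mul_one] at hk
    have hxe : x = D * t - k := by linarith
    rw [hxe] at hx1 hx2
    exact ⟨k, hx1, hx2⟩
  choose M hM1 hM2 using hpos
  set g : ℝ → ℕ × ℤ := fun t => ((E (y t)).1.1,
    ((((E (y t)).1.2.2 : ℕ) : ℤ) - M t) % (ord n (E (y t)).1.1 : ℤ)) with hg
  have hloc : IsLocallyConstant g := by
    rw [IsLocallyConstant.iff_eventually_eq]
    intro t0
    have e1 : ∀ᶠ t in 𝓝 t0, J (y t) ∈ box (E (y t0)).2 :=
      hyc.continuousAt.eventually ((soundAux_isOpen_box _).mem_nhds (hEJ (y t0)))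
    have hc2 : Continuous fun t : ℝ => D * t - (M t0 : ℝ) := by fun_prop
    have e2 : ∀ᶠ t in 𝓝 t0, (((E (y t0)).1.2.1 : ℕ) : ℝ) / 3 - 1 / 12 < D * t - M t0 :=
      hc2.continuousAt.eventually (lt_mem_nhds (hM1 t0))
    have e3 : ∀ᶠ t in 𝓝 t0, D * t - M t0 < ((((E (y t0)).1.2.1 : ℕ) : ℝ) + 1) / 3 + 1 / 12 :=
      hc2.continuousAt.eventually (gt_mem_nhds (hM2 t0))
    filter_upwards [e1, e2, e3] with t h1 h2 h3
    have hcomp : Compat n (E (y t0)).1 (E (y t)).1 := by
      rcases hL2 _ (hEL (y t0)) _ (hEL (y t)) with h | h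
      · exact h
      · exact absurd (hEJ (y t)) (disjoint_left.1 (soundAux_FD_disjoint h) h1)
    have ha0 := (hL1 _ (hEL (y t0))).2.1
    have ha := (hL1 _ (hEL (y t))).2.1
    obtain ⟨b1, b2⟩ := int_zero h2 h3 (hM1 t) (hM2 t)
    rw [sub_self, zero_sub] at b1 b2
    rw [hg]
    simp only
    obtain ⟨hi, hc⟩ := hcomp
    rw [← hi]
    rw [Prod.mk.injEq]
    refine ⟨rfl, ?_⟩
    set r := ord n (E (y t0)).1.1 with hr
    generalize (E (y t0)).1.2.2 = s0 at *
    generalize (E (y t)).1.2.2 = s at *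
    generalize (E (y t0)).1.2.1 = a0 at *
    generalize (E (y t)).1.2.1 = a at *
    generalize M t0 = M0 at *
    generalize M t = M1 at *
    rcases hc with ⟨k1, k2, k3⟩ | ⟨k1, k2, k3⟩ | ⟨k1, k2, k3⟩
    · subst k1 k2
      have e : M1 = M0 + 1 := by
        have c1 : (1 : ℝ) / 6 < ((M1 - M0 : ℤ) : ℝ) := by
          push_cast at b1 b2 ⊢; linarith
        have c2 : ((M1 - M0 : ℤ) : ℝ) < 7 / 6 := by
          push_cast at b1 b2 ⊢; linarith
        have c3 : 0 < M1 - M0 := by
          have : (0 : ℝ) < ((M1 - M0 : ℤ) : ℝ) := by linarith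
          exact_mod_cast this
        have c4 : M1 - M0 < 2 := by
          have : ((M1 - M0 : ℤ) : ℝ) < 2 := by linarith
          exact_mod_cast this
        omega
      have k4 : (s : ℤ) ≡ s0 + 1 [ZMOD r] := by
        have : s ≡ s0 + 1 [MOD r] := k3
        have := (Int.natCast_modEq_iff).2 this
        push_cast at this
        exact this
      have k5 : (s : ℤ) - M1 ≡ s0 + 1 - M1 [ZMOD r] := k4.sub_right _
      rw [e] at k5 ⊢
      have k6 : (s0 : ℤ) + 1 - (M0 + 1) = s0 - M0 := by ring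
      rw [k6] at k5
      exact k5
    · subst k1 k2
      have e : M1 = M0 - 1 := by
        have c1 : ((M1 - M0 : ℤ) : ℝ) < -(1 : ℝ) / 6 := by
          push_cast at b1 b2 ⊢; linarith
        have c2 : -(7 : ℝ) / 6 < ((M1 - M0 : ℤ) : ℝ) := by
          push_cast at b1 b2 ⊢; linarith
        have c3 : M1 - M0 < 0 := by
          have : ((M1 - M0 : ℤ) : ℝ) < 0 := by linarith
          exact_mod_cast this
        have c4 : -2 < M1 - M0 := by
          have : (-2 : ℝ) < ((M1 - M0 : ℤ) : ℝ) := by linarith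
          exact_mod_cast this
        omega
      have k4 : (s0 : ℤ) ≡ s + 1 [ZMOD r] := by
        have : s0 ≡ s + 1 [MOD r] := k3
        have := (Int.natCast_modEq_iff).2 this
        push_cast at this
        exact this
      have k5 : (s0 : ℤ) - M0 ≡ s + 1 - M0 [ZMOD r] := k4.sub_right _
      rw [e]
      have k6 : (s : ℤ) + 1 - M0 = s - (M0 - 1) := by ring
      rw [k6] at k5
      exact k5.symm
    · have e : M1 = M0 := by
        have d1 : ((a0 : ℝ) - a) ≤ 1 := by
          have : a0 ≤ a + 1 := by omega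
          have : (a0 : ℝ) ≤ a + 1 := by exact_mod_cast this
          linarith
        have d2 : -1 ≤ ((a0 : ℝ) - a) := by
          have : a ≤ a0 + 1 := by omega
          have : (a : ℝ) ≤ a0 + 1 := by exact_mod_cast this
          linarith
        have c1 : ((M1 - M0 : ℤ) : ℝ) < 1 := by
          push_cast at b1 b2 ⊢; linarith
        have c2 : -1 < ((M1 - M0 : ℤ) : ℝ) := by
          push_cast at b1 b2 ⊢; linarith
        have c3 : M1 - M0 < 1 := by exact_mod_cast c1
        have c4 : -1 < M1 - M0 := by exact_mod_cast c2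
        omega
      have k4 : (s0 : ℤ) ≡ s [ZMOD r] := by
        have : s0 ≡ s [MOD r] := k3
        exact (Int.natCast_modEq_iff).2 this
      rw [e]
      exact (k4.sub_right M0).symm
  have hconst : g 1 = g 0 := hloc.apply_eq_of_preconnectedSpace 1 0
  have hy1 : y 1 = y 0 := by
    rw [hy]
    simp only
    congr 1
    rw [AddCircle.coe_zero]
    exact AddCircle.coe_period 1
  have hM : M 1 = M 0 + D := by
    have u1 := hM1 1
    have u2 := hM2 1
    rw [hy1] at u1 u2
    obtain ⟨b1, b2⟩ := int_zero u1 u2 (hM1 0) (hM2 0)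
    push_cast at b1 b2
    have c1 : ((M 1 - M 0 - D : ℤ) : ℝ) < 1 := by push_cast; linarith
    have c2 : -1 < ((M 1 - M 0 - D : ℤ) : ℝ) := by push_cast; linarith
    have c3 : M 1 - M 0 - D < 1 := by exact_mod_cast c1
    have c4 : -1 < M 1 - M 0 - D := by exact_mod_cast c2
    omega
  rw [hg] at hconst
  simp only [hy1, hM, Prod.mk.injEq, true_and] at hconst
  have hdvd : ((ord n (E (y 0)).1.1 : ℕ) : ℤ) ∣ ((D : ℕ) : ℤ) := by
    have := Int.ModEq.dvd (show (((E (y 0)).1.2.2 : ℤ) - (M 0 + D)) ≡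
      (((E (y 0)).1.2.2 : ℤ) - M 0) [ZMOD (ord n (E (y 0)).1.1 : ℕ)] from hconst)
    have h2 : ((E (y 0)).1.2.2 : ℤ) - M 0 - (((E (y 0)).1.2.2 : ℤ) - (M 0 + D)) = D := by ring
    rwa [h2] at this
  exact not_ord_dvd (hL1 _ (hEL (y 0))).1 (Int.natCast_dvd_natCast.1 hdvd)

end R749IC
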