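import Pool.Agent.R749.IC.Notions

/-!
# The space with infinitely many circle components (MP_f8852a_lc)
-/

open Set Topology

namespace R749IC

namespace Sp

local instance factOne : Fact ((0 : ℝ) < 1) := ⟨one_pos⟩

/-- the ambient space -/
abbrev Amb : Type := (ℕ → Bool) × (ℕ → Circ) × Circ

/-- the circles in the ambient space -/
noncomputable def gam (j : ℕ) (t : Circ) : Amb :=
  (fun k => decide (k < j),
    fun k => if k ≤ j then (2 ^ (j - k) * (2 ^ (2 ^ j) + 1)) • t else 0, t)

theorem continuous_gam (j : ℕ) : Continuous (gam j) := by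
  unfold gam
  refine Continuous.prodMk continuous_const (Continuous.prodMk ?_ continuous_id)
  refine continuous_pi fun k => ?_
  by_cases h : k ≤ j
  · simp only [h, if_true]
    exact continuous_const_smul _
  · simp only [h, if_false]
    exact continuous_const

/-- the level sets -/
def Lev (j : ℕ) : Set Amb := {z | (∀ k < j, z.1 k = true) ∧ z.1 j = false}

theorem isClopen_coord (k : ℕ) (b : Bool) : IsClopen {z : Amb | z.1 k = b} := by
  have hc : Continuous (fun z : Amb => z.1 k) := (continuous_apply k).comp continuous_fst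
  exact (isClopen_discrete ({b} : Set Bool)).preimage hc

theorem isClopen_Lev (j : ℕ) : IsClopen (Lev j) := by
  have h1 : IsClopen (⋂ k ∈ Finset.range j, {z : Amb | z.1 k = true}) :=
    isClopen_biInter_finset fun k _ => isClopen_coord k true
  have h2 := h1.inter (isClopen_coord j false)
  have e : Lev j = (⋂ k ∈ Finset.range j, {z : Amb | z.1 k = true}) ∩
      {z : Amb | z.1 j = false} := by
    ext z
    simp [Lev]
  rw [e]
  exact h2

theorem gam_mem_Lev (j : ℕ) (t : Circ) : gam j t ∈ Lev j := by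
  constructor
  · intro k hk
    simp [gam, hk]
  · simp [gam]

theorem Lev_gam {i j : ℕ} {t : Circ} (h : gam i t ∈ Lev j) : i = j := by
  obtain ⟨h1, h2⟩ := h
  have h3 : ¬ j < i := by
    simpa [gam] using h2
  rcases Nat.lt_or_ge i j with h4 | h4
  · have h5 := h1 i h4
    simp [gam] at h5
  · omega

/-- the space, as a subset of the ambient space -/
def S : Set Amb := closure (⋃ j, range (gam j))

theorem gam_mem_S (j : ℕ) (t : Circ) : gam j t ∈ S :=
  subset_closure (mem_iUnion.2 ⟨j, t, rfl⟩)

theorem isClosed_range_gam (j : ℕ) : IsClosed (range (gam j)) :=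
  (isCompact_range (continuous_gam j)).isClosed

theorem mem_range_of_Lev {j : ℕ} {z : Amb} (hz : z ∈ S) (hL : z ∈ Lev j) : z ∈ range (gam j) := by
  have h1 : z ∈ closure (Lev j ∩ ⋃ j, range (gam j)) :=
    (isClopen_Lev j).isOpen.inter_closure ⟨hL, hz⟩
  have h2 : Lev j ∩ (⋃ j, range (gam j)) ⊆ range (gam j) := by
    rintro w ⟨hw1, hw2⟩
    obtain ⟨i, t, rfl⟩ := mem_iUnion.1 hw2
    have := Lev_gam hw1
    subst this
    exact ⟨t, rfl⟩
  exact (isClosed_range_gam j).closure_subset_iff.2 h2 h1

/-- the circles in the space -/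
noncomputable def gamS (j : ℕ) (t : Circ) : S := ⟨gam j t, gam_mem_S j t⟩

theorem range_gamS (j : ℕ) : range (gamS j) = Subtype.val ⁻¹' (Lev j) := by
  ext x
  constructor
  · rintro ⟨t, rfl⟩
    exact gam_mem_Lev j t
  · intro hx
    obtain ⟨t, ht⟩ := mem_range_of_Lev x.2 hx
    exact ⟨t, Subtype.ext ht⟩

theorem root_closed (n : ℕ) : IsClosed {z : Amb | (∃ k ∈ Finset.range (n + 1), z.1 k = false) ∨
    z.2.1 0 = (2 ^ (n + 1)) • z.2.1 (n + 1)} := by
  have h1 : IsClosed (⋃ k ∈ Finset.range (n + 1), {z : Amb | z.1 k = false}) :=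
    (isClopen_biUnion_finset fun k _ => isClopen_coord k false).isClosed
  have h2 : IsClosed {z : Amb | z.2.1 0 = (2 ^ (n + 1)) • z.2.1 (n + 1)} := by
    refine isClosed_eq ?_ ?_
    · exact (continuous_apply 0).comp (continuous_fst.comp continuous_snd)
    · exact ((continuous_apply (n + 1)).comp (continuous_fst.comp continuous_snd)).nsmul _
  have h3 := h1.union h2
  have e : {z : Amb | (∃ k ∈ Finset.range (n + 1), z.1 k = false) ∨
      z.2.1 0 = (2 ^ (n + 1)) • z.2.1 (n + 1)} =
      (⋃ k ∈ Finset.range (n + 1), {z : Amb | z.1 k = false}) ∪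
        {z : Amb | z.2.1 0 = (2 ^ (n + 1)) • z.2.1 (n + 1)} := by
    ext z
    simp
  rw [e]
  exact h3

theorem S_root (n : ℕ) {z : Amb} (hz : z ∈ S) : (∃ k ∈ Finset.range (n + 1), z.1 k = false) ∨
    z.2.1 0 = (2 ^ (n + 1)) • z.2.1 (n + 1) := by
  have h : S ⊆ {z : Amb | (∃ k ∈ Finset.range (n + 1), z.1 k = false) ∨
      z.2.1 0 = (2 ^ (n + 1)) • z.2.1 (n + 1)} := by
    refine closure_minimal ?_ (root_closed n)
    intro w hw
    obtain ⟨j, t, rfl⟩ := mem_iUnion.1 hw
    rcases Nat.lt_or_ge n j with h | h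
    · right
      have h0 : (0 : ℕ) ≤ j := Nat.zero_le j
      have h1 : n + 1 ≤ j := h
      show (gam j t).2.1 0 = (2 ^ (n + 1)) • (gam j t).2.1 (n + 1)
      simp only [gam, h0, h1, if_true]
      rw [smul_smul, ← mul_assoc, ← pow_add]
      congr 3
      omega
    · left
      refine ⟨j, Finset.mem_range.2 (by omega), ?_⟩
      exact (gam_mem_Lev j t).2
  exact h hz

theorem all_true {n : ℕ} {z : Amb} (h : ∀ j ≤ n, z ∉ Lev j) : ∀ k ≤ n, z.1 k = true := by
  intro k
  induction k using Nat.strong_induction_on with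
  | _ k ih =>
    intro hk
    by_contra hc
    have hc' : z.1 k = false := by simpa using hc
    exact h k hk ⟨fun i hi => ih i hi (by omega), hc'⟩

theorem hroot (n : ℕ) (x : S) (h : ∀ j ≤ n, x ∉ range (gamS j)) :
    (2 ^ (n + 1)) • x.1.2.1 (n + 1) = x.1.2.1 0 := by
  have h1 : ∀ j ≤ n, x.1 ∉ Lev j := by
    intro j hj hL
    apply h j hj
    rw [range_gamS]
    exact hL
  have h2 := all_true h1
  rcases S_root n x.2 with ⟨k, hk, hk2⟩ | h3
  · have hk3 := h2 k (by have := Finset.mem_range.1 hk; omega)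
    rw [hk3] at hk2
    exact absurd hk2 (by simp)
  · exact h3.symm

/-- the model -/
noncomputable def model : Model S where
  θ := fun x => x.1.2.1 0
  hθ := (continuous_apply 0).comp
    (continuous_fst.comp (continuous_snd.comp continuous_subtype_val))
  τ := fun x => x.1.2.2
  hτ := continuous_snd.comp (continuous_snd.comp continuous_subtype_val)
  γ := gamS
  hγ := fun n => (continuous_gam n).subtype_mk _
  hτγ := fun n t => rfl
  hθγ := fun n t => by
    show (gam n t).2.1 0 = _
    simp [gam]
  hopen := fun n => by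
    rw [range_gamS]
    exact (isClopen_Lev n).isOpen.preimage continuous_subtype_val
  hdisj := fun m n hmn => by
    rw [Set.disjoint_left]
    rintro x ⟨s, rfl⟩ hx
    rw [range_gamS] at hx
    exact hmn (Lev_gam hx)
  hdense := by
    rw [Subtype.dense_iff]
    intro z hz
    have e : (Subtype.val '' ⋃ n, range (gamS n)) = ⋃ j, range (gam j) := by
      ext w
      constructor
      · rintro ⟨x, hx, rfl⟩
        obtain ⟨n, t, rfl⟩ := mem_iUnion.1 hx
        exact mem_iUnion.2 ⟨n, t, rfl⟩
      · intro hw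
        obtain ⟨n, t, rfl⟩ := mem_iUnion.1 hw
        exact ⟨gamS n t, mem_iUnion.2 ⟨n, t, rfl⟩, rfl⟩
    rw [e]
    exact hz
  ψ := fun n x => x.1.2.1 (n + 1)
  hψ := fun n => (continuous_apply (n + 1)).comp
    (continuous_fst.comp (continuous_snd.comp continuous_subtype_val))
  hroot := fun n x h => hroot n x h

end Sp

theorem exists_model : ∃ (X : Type) (_ : TopologicalSpace X), CompactSpace X ∧
    TopologicalSpace.MetrizableSpace X ∧ Nonempty (Model X) := by
  have : Fact ((0 : ℝ) < 1) := ⟨one_pos⟩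
  refine ⟨Sp.S, inferInstance, ?_, inferInstance, ⟨Sp.model⟩⟩
  exact isCompact_iff_compactSpace.1 (isClosed_closure.isCompact)

theorem Model.infinite_components {X : Type} [TopologicalSpace X] [CompactSpace X] [T2Space X]
    (m : Model X) : Infinite (ConnectedComponents X) := by
  have : Fact ((0 : ℝ) < 1) := ⟨one_pos⟩
  have hclo : ∀ n, IsClopen (range (m.γ n)) := fun n =>
    ⟨(isCompact_range (m.hγ n)).isClosed, m.hopen n⟩
  have hinj : Function.Injective (fun n : ℕ => (ConnectedComponents.mk (m.γ n 0))) := by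
    intro a b hab
    by_contra hne
    have h1 : connectedComponent (m.γ a 0) = connectedComponent (m.γ b 0) :=
      ConnectedComponents.coe_eq_coe.1 hab
    have h2 : m.γ b 0 ∈ connectedComponent (m.γ a 0) := by
      rw [h1]
      exact mem_connectedComponent
    have h3 : m.γ b 0 ∈ range (m.γ a) :=
      (hclo a).connectedComponent_subset ⟨0, rfl⟩ h2
    exact (Set.disjoint_left.1 (m.hdisj a b hne)) h3 ⟨0, rfl⟩
  exact Infinite.of_injective _ hinj

end R749IC
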