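import Pool.Agent.R749.IC.Prim
import Pool.Agent.R749.IC.Box
import Pool.Agent.R749.IC.Space
import Pool.Agent.R749.IC.Sound
import Pool.Agent.R749.IC.Complete
import Pool.Agent.R749.IC.Pieces

/-!
# A compact space with a `Model` has strong computable type
-/

open Set Topology

namespace R749IC

open R749SCT (HilbertCube oracle CEIn)

theorem sct_of_model {X : Type} [TopologicalSpace X] [CompactSpace X] [T2Space X] (m : Model X) :
    StrongComputableType X := by
  rintro O Y ⟨j⟩ hY
  refine ⟨hY, ?_⟩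
  set J : X → HilbertCube := fun x => (j x : HilbertCube) with hJdef
  have hJ : Continuous J := continuous_subtype_val.comp j.continuous
  have hJi : Function.Injective J := Subtype.val_injective.comp j.injective
  have hJY : ∀ x, J x ∈ Y := fun x => (j x).2
  have hYJ : ∀ y ∈ Y, ∃ x, J x = y := by
    intro y hy
    obtain ⟨x, hx⟩ := j.surjective ⟨y, hy⟩
    exact ⟨x, by rw [hJdef]; simp only [hx]⟩
  obtain ⟨N, N₀, hN, hN₀⟩ := advice m.θ m.hθ J hJ hJi
  have hset : {v : BoxCode | ∃ y ∈ Y, y ∈ box v} =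
      {b : BoxCode | ∃ c : ℕ × List LBox, Cert N c.1 c.2 ∧
        ∀ y ∈ Y, ∃ v ∈ b :: c.2.map Prod.snd, y ∈ box v} := by
    ext b
    constructor
    · rintro ⟨y, hy, hyb⟩
      obtain ⟨x, rfl⟩ := hYJ y hy
      have hB : IsOpen (J ⁻¹' box b) := (isOpen_box b).preimage hJ
      obtain ⟨z, hz, hz'⟩ := m.hdense.inter_open_nonempty _ hB ⟨x, hyb⟩
      obtain ⟨n, hn⟩ := mem_iUnion.1 hz'
      obtain ⟨t, rfl⟩ := hn
      obtain ⟨K, ρ, hK, hdis, hρ, hroot, hcov⟩ := pieces m (J ⁻¹' box b) hB n t hz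
      obtain ⟨L, hL, hLc⟩ := complete m.θ m.hθ J hJ hJi N N₀ hN₀ n K ρ hK hdis hρ hroot
      refine ⟨(n, L), hL, ?_⟩
      intro y hy
      obtain ⟨x', rfl⟩ := hYJ y hy
      by_cases hx' : J x' ∈ box b
      · exact ⟨b, List.mem_cons_self, hx'⟩
      · obtain ⟨i, hi, hxi⟩ := hcov x' hx'
        obtain ⟨e, he, hxe⟩ := hLc i hi x' hxi
        exact ⟨e.2, List.mem_cons_of_mem _ (List.mem_map_of_mem he), hxe⟩
    · rintro ⟨⟨n, L⟩, hL, hc⟩
      by_contra hno
      refine sound m J hJ N hN n L hL ?_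
      intro x
      obtain ⟨v, hv, hxv⟩ := hc (J x) (hJY x)
      rcases List.mem_cons.1 hv with rfl | hv
      · exact absurd ⟨J x, hJY x, hxv⟩ hno
      · obtain ⟨e, he, rfl⟩ := List.mem_map.1 hv
        exact ⟨e, he, hxv⟩
  rw [hset]
  exact CEIn.main hY N

/-- **There is a compact metrizable space of strong computable type with infinitely many connected
components.** -/
theorem main : ∃ (X : Type) (_ : TopologicalSpace X), CompactSpace X ∧
    TopologicalSpace.MetrizableSpace X ∧ StrongComputableType X ∧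
    Infinite (ConnectedComponents X) := by
  obtain ⟨X, hX, hc, hm, ⟨m⟩⟩ := exists_model
  have := hm
  have : T2Space X := by
    let := TopologicalSpace.metrizableSpaceMetric X
    infer_instance
  exact ⟨X, hX, hc, hm, sct_of_model m, m.infinite_components⟩

end R749IC
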