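import Pool.Agent.R749.IC.Defs

/-!
# Auxiliary notions for MP_f8852a_lc (not used in the final statement)
-/

open Set Topology

namespace R749IC

open R749SCT (HilbertCube oracle CEIn)

/-- formal disjointness of two coded boxes: in some coordinate the intervals are disjoint -/
def FD (v w : BoxCode) : Prop :=
  ∃ n < v.length, n < w.length ∧
    ((v.getD n (0, 0, 0)).2.1 * ((w.getD n (0, 0, 0)).2.2 + 1) ≤
        (w.getD n (0, 0, 0)).1 * ((v.getD n (0, 0, 0)).2.2 + 1) ∨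
      (w.getD n (0, 0, 0)).2.1 * ((v.getD n (0, 0, 0)).2.2 + 1) ≤
        (v.getD n (0, 0, 0)).1 * ((w.getD n (0, 0, 0)).2.2 + 1))

/-- `N`-fine boxes -/
def Fine (N : ℕ) (v : BoxCode) : Prop :=
  N ≤ v.length ∧ ∀ n < N, hi v n - lo v n ≤ 1 / ((N : ℝ) + 1)

/-- the circle `ℝ/ℤ` -/
abbrev Circ : Type := AddCircle (1 : ℝ)

/-- the open arc `(a/3 - 1/12, (a+1)/3 + 1/12)` -/
def Varc (a : ℕ) : Set Circ :=
  {z | ∃ x : ℝ, (x : Circ) = z ∧ (a : ℝ) / 3 - 1 / 12 < x ∧ x < ((a : ℝ) + 1) / 3 + 1 / 12}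

/-- the closed arc `[a/3, (a+1)/3]` -/
def Warc (a : ℕ) : Set Circ :=
  {z | ∃ x : ℝ, (x : Circ) = z ∧ (a : ℝ) / 3 ≤ x ∧ x ≤ ((a : ℝ) + 1) / 3}

/-- order of the root used on the `i`-th piece -/
def ord (n i : ℕ) : ℕ :=
  if i = 0 then 2 ^ (n + 1) else 2 ^ (2 ^ (i - 1)) + 1

/-- compatibility of labels `(i, a, s)`, `(i', a', s')` -/
def Compat (n : ℕ) (e f : ℕ × ℕ × ℕ) : Prop :=
  e.1 = f.1 ∧
    ((e.2.1 = 2 ∧ f.2.1 = 0 ∧ f.2.2 % ord n e.1 = (e.2.2 + 1) % ord n e.1) ∨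
      (e.2.1 = 0 ∧ f.2.1 = 2 ∧ e.2.2 % ord n e.1 = (f.2.2 + 1) % ord n e.1) ∨
      (¬ (e.2.1 = 2 ∧ f.2.1 = 0) ∧ ¬ (e.2.1 = 0 ∧ f.2.1 = 2) ∧
        e.2.2 % ord n e.1 = f.2.2 % ord n e.1))

/-- The certificates: `N a` is the advice, a list of boxes which covers the part of the space where
`θ` is outside of `Varc a`; the entries of `L` are pairs (label, box). -/
def Cert (N : ℕ → List BoxCode) (n : ℕ) (L : List ((ℕ × ℕ × ℕ) × BoxCode)) : Prop :=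
  (∀ e ∈ L, e.1.1 ≤ n ∧ e.1.2.1 < 3 ∧ ∀ w ∈ N e.1.2.1, FD e.2 w) ∧
    ∀ e ∈ L, ∀ f ∈ L, Compat n e.1 f.1 ∨ FD e.2 f.2

/-- The structure of the space: open circles `γ n` with dense union, a map `θ` to the circle which
has degree `2 ^ n * F n` on the `n`-th circle and is divisible by `2 ^ (n + 1)` outside of the
circles `0, …, n`; the map `τ` is a coordinate on each circle. -/
structure Model (X : Type) [TopologicalSpace X] where
  θ : X → Circ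
  hθ : Continuous θ
  τ : X → Circ
  hτ : Continuous τ
  γ : ℕ → Circ → X
  hγ : ∀ n, Continuous (γ n)
  hτγ : ∀ n t, τ (γ n t) = t
  hθγ : ∀ n t, θ (γ n t) = (2 ^ n * (2 ^ (2 ^ n) + 1)) • t
  hopen : ∀ n, IsOpen (range (γ n))
  hdisj : ∀ m n, m ≠ n → Disjoint (range (γ m)) (range (γ n))
  hdense : Dense (⋃ n, range (γ n))
  ψ : ℕ → X → Circ
  hψ : ∀ n, Continuous (ψ n)
  hroot : ∀ n x, (∀ j ≤ n, x ∉ range (γ j)) → (2 ^ (n + 1)) • ψ n x = θ x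

end R749IC
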